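import Mathlib

open MeasureTheory ProbabilityTheory Set Filter Topology

namespace Pool.Agent.Results.MP_ed16aa_pr.Unique

/-- Probability that the draw `x` beats an independent draw from `g`, ties split evenly. -/
noncomputable def win (g : Measure ℝ) (x : ℝ) : ℝ := g.real (Iio x) + g.real {x} / 2

/-- Payoff of strategy `f` against the aggregate strategy `g`. -/
noncomputable def H (g f : Measure ℝ) : ℝ := ∫ x, win g x ∂f

/-- `f` is a probability distribution on `[0, ∞)` with mean `y`. -/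
def Adm (f : Measure ℝ) (y : ℝ) : Prop :=
  IsProbabilityMeasure f ∧ f (Iio 0) = 0 ∧ Integrable (fun x => x) f ∧ ∫ x, x ∂f = y

/-- Players `ω` distributed as `P`, with budget `b ω` and strategy `f ω`; the aggregate strategy
is the mixture `P.bind f`.  Almost every player plays an admissible best response. -/
def NE {Ω : Type*} [MeasurableSpace Ω] (P : Measure Ω) (b : Ω → ℝ) (f : Kernel Ω ℝ) : Prop :=
  ∀ᵐ ω ∂P, Adm (f ω) (b ω) ∧ ∀ f', Adm f' (b ω) → H (P.bind f) f' ≤ H (P.bind f) (f ω)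

noncomputable def G (g : Measure ℝ) (x : ℝ) : ℝ := g.real (Iic x)

section basic
variable {g : Measure ℝ} [IsProbabilityMeasure g]

lemma G_mono : Monotone (G g) := fun _ _ h => measureReal_mono (Iic_subset_Iic.2 h)
lemma G_nonneg (x : ℝ) : 0 ≤ G g x := measureReal_nonneg
lemma G_le (x : ℝ) : G g x ≤ 1 := measureReal_le_one
lemma G_rc (x : ℝ) : ContinuousWithinAt (G g) (Ici x) x := by
  have : G g = cdf g := funext fun x => (cdf_eq_real g x).symm
  rw [this]; exact (cdf g).right_continuous x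
lemma G_top : Tendsto (G g) atTop (𝓝 1) := by
  have : G g = cdf g := funext fun x => (cdf_eq_real g x).symm
  rw [this]; exact tendsto_cdf_atTop g
lemma G_split (x : ℝ) : G g x = g.real (Iio x) + g.real {x} := by
  rw [G, ← Iio_union_right, measureReal_union (by simp) (measurableSet_singleton _)]

lemma win_mono : Monotone (win g) := by
  refine monotone_iff_forall_lt.2 fun x y h => ?_
  have h1 : G g x ≤ g.real (Iio y) := measureReal_mono (Iic_subset_Iio.2 h)
  have := G_split (g := g) x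
  have : 0 ≤ g.real {x} := measureReal_nonneg
  have : 0 ≤ g.real {y} := measureReal_nonneg
  unfold win; linarith
lemma win_nonneg (x : ℝ) : 0 ≤ win g x := by unfold win; positivity
lemma win_le (x : ℝ) : win g x ≤ 1 := by
  have := G_split (g := g) x
  have := G_le (g := g) x
  have : 0 ≤ g.real {x} := measureReal_nonneg
  unfold win; linarith

lemma int_bdd {φ : ℝ → ℝ} (hm : Monotone φ) (h0 : ∀ x, 0 ≤ φ x) (h1 : ∀ x, φ x ≤ 1)
    (μ : Measure ℝ) [IsFiniteMeasure μ] : Integrable φ μ :=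
  Integrable.of_bound hm.measurable.aestronglyMeasurable 1
    (Eventually.of_forall fun x => by rw [Real.norm_eq_abs, abs_of_nonneg (h0 x)]; exact h1 x)
end basic

lemma adm_two {x1 x2 y : ℝ} (h0 : 0 ≤ x1) (h1 : x1 < y) (h2 : y < x2) :
    ∃ f, Adm f y ∧ ∀ φ : ℝ → ℝ, ∫ x, φ x ∂f = ((x2 - y) * φ x1 + (y - x1) * φ x2) / (x2 - x1) := by
  have hd : 0 < x2 - x1 := by linarith
  set p : NNReal := ⟨(x2 - y) / (x2 - x1), by apply div_nonneg <;> linarith⟩
  set q : NNReal := ⟨(y - x1) / (x2 - x1), by apply div_nonneg <;> linarith⟩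
  have hp : (p : ℝ) = (x2 - y) / (x2 - x1) := rfl
  have hq : (q : ℝ) = (y - x1) / (x2 - x1) := rfl
  have hi : ∀ φ : ℝ → ℝ, Integrable φ (p • Measure.dirac x1 + q • Measure.dirac x2) := fun φ =>
    ((integrable_dirac (by simp)).smul_measure_nnreal).add_measure
      ((integrable_dirac (by simp)).smul_measure_nnreal)
  have he : ∀ φ : ℝ → ℝ, ∫ x, φ x ∂(p • Measure.dirac x1 + q • Measure.dirac x2) =
      ((x2 - y) * φ x1 + (y - x1) * φ x2) / (x2 - x1) := fun φ => by
    rw [integral_add_measure ((integrable_dirac (by simp)).smul_measure_nnreal)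
      ((integrable_dirac (by simp)).smul_measure_nnreal), integral_smul_nnreal_measure,
      integral_smul_nnreal_measure, integral_dirac, integral_dirac, NNReal.smul_def,
      NNReal.smul_def, hp, hq, smul_eq_mul, smul_eq_mul]
    field_simp
  refine ⟨_, ⟨⟨?_⟩, ?_, hi _, ?_⟩, he⟩
  · have : p + q = 1 := by
      ext; rw [NNReal.coe_add, hp, hq]; field_simp; simp
    simp only [Measure.add_apply, Measure.smul_apply, measure_univ, ENNReal.smul_one]
    rw [← ENNReal.coe_add, this]; rfl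
  · have a1 : x1 ∉ Iio (0 : ℝ) := not_lt.2 h0
    have a2 : x2 ∉ Iio (0 : ℝ) := not_lt.2 (show 0 ≤ x2 by linarith)
    simp [Measure.dirac_apply, indicator_of_notMem a1, indicator_of_notMem a2]
  · rw [he]; field_simp; ring

/-- supporting line from two-point inequalities -/
lemma supp_line {φ : ℝ → ℝ} {y h : ℝ} (hy : 0 < y) (h0 : ∀ x, 0 ≤ φ x) (hyy : φ y ≤ h)
    (h2 : ∀ x1 x2, 0 ≤ x1 → x1 < y → y < x2 →
      ((x2 - y) * φ x1 + (y - x1) * φ x2) / (x2 - x1) ≤ h) :
    ∃ l, 0 ≤ l ∧ ∀ z, 0 ≤ z → φ z ≤ h + l * (z - y) := by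
  have key : ∀ x1 x2, 0 ≤ x1 → x1 < y → y < x2 → (φ x2 - h) / (x2 - y) ≤ (h - φ x1) / (y - x1) := by
    intro x1 x2 a b c
    have := h2 x1 x2 a b c
    rw [div_le_iff₀ (by linarith)] at this
    rw [div_le_div_iff₀ (by linarith) (by linarith)]
    nlinarith
  set S := {s | ∃ x2, y < x2 ∧ s = (φ x2 - h) / (x2 - y)}
  have hb : BddAbove S := ⟨(h - φ 0) / (y - 0), by
    rintro _ ⟨x2, c, rfl⟩; exact key 0 x2 le_rfl hy c⟩
  have hne : S.Nonempty := ⟨_, y + 1, by linarith, rfl⟩
  have hh : 0 ≤ h := (h0 y).trans hyy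
  refine ⟨sSup S, ?_, fun z hz => ?_⟩
  · refine le_of_forall_pos_le_add fun ε hε => ?_
    have := le_csSup hb ⟨y + (h / ε + 1), by have := div_nonneg hh hε.le; linarith, rfl⟩
    have hp : 0 < h / ε + 1 := by positivity
    rw [add_sub_cancel_left, div_le_iff₀ hp] at this
    have h3 : ε * (h / ε + 1) = h + ε := by field_simp
    have := h0 (y + (h / ε + 1))
    nlinarith
  · rcases lt_trichotomy z y with c | c | c
    · have : sSup S ≤ (h - φ z) / (y - z) :=
        csSup_le hne (by rintro _ ⟨x2, d, rfl⟩; exact key z x2 hz c d)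
      rw [le_div_iff₀ (by linarith)] at this
      linarith
    · rw [c]; linarith
    · have := le_csSup hb ⟨z, c, rfl⟩
      rw [div_le_iff₀ (by linarith)] at this
      linarith

lemma int_aff {f : Measure ℝ} {y : ℝ} (hf : Adm f y) (c l s : ℝ) :
    Integrable (fun z => c + l * (z - s)) f ∧ ∫ z, c + l * (z - s) ∂f = c + l * (y - s) := by
  obtain ⟨_, _, hi, hm⟩ := hf
  have h1 : Integrable (fun z => l * (z - s)) f := (hi.sub (integrable_const _)).const_mul _
  refine ⟨(integrable_const _).add h1, ?_⟩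
  rw [integral_add (integrable_const _) h1, integral_const_mul,
    integral_sub hi (integrable_const _), hm]
  simp

lemma Adm.ae {f : Measure ℝ} {y : ℝ} (hf : Adm f y) : ∀ᵐ z ∂f, 0 ≤ z := by
  rw [ae_iff]; simp only [not_le]; exact hf.2.1

lemma contact {φ : ℝ → ℝ} {f : Measure ℝ} {y h l : ℝ} (hf : Adm f y) (hi : Integrable φ f)
    (hl : ∀ z, 0 ≤ z → φ z ≤ h + l * (z - y)) (he : ∫ z, φ z ∂f = h) :
    ∀ᵐ z ∂f, 0 ≤ z ∧ φ z = h + l * (z - y) := by
  obtain ⟨h1, h2⟩ := int_aff hf h l y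
  have := (integral_eq_iff_of_ae_le hi h1 (hf.ae.mono hl)).1 (by rw [he, h2]; ring)
  filter_upwards [hf.ae, this] with z a b using ⟨a, b⟩

def Con (φ : ℝ → ℝ) (x : ℝ) : Prop := 0 ≤ x ∧ ∃ l, 0 ≤ l ∧ ∀ z, 0 ≤ z → φ z ≤ φ x + l * (z - x)

structure Eqm (g : Measure ℝ) : Prop where
  atom : ∀ a, g {a} = 0
  neg : g (Iio 0) = 0
  jen : ∀ y f, Adm f y → ∫ x, G g x ∂f ≤ G g y

variable {Ω Ω' : Type*} [MeasurableSpace Ω] [MeasurableSpace Ω']

lemma ne_eqm {P : Measure Ω} [IsProbabilityMeasure P] {b : Ω → ℝ} {f : Kernel Ω ℝ}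
    [IsMarkovKernel f] (hb : ∀ᵐ ω ∂P, 0 < b ω) (h : NE P b f) :
    Eqm (P.bind f) ∧ win (P.bind f) = G (P.bind f) := by
  set g := P.bind f with hg
  haveI : IsProbabilityMeasure g := inferInstanceAs (IsProbabilityMeasure (f ∘ₘ P))
  have hc : ∀ S, MeasurableSet S → g S ≠ 0 → ∃ x ∈ S, Con (win g) x := by
    intro S hS hne
    by_contra hcon
    push Not at hcon
    apply hne
    rw [measure_eq_zero_iff_ae_notMem]
    refine Measure.ae_comp_of_ae_ae hS.compl ?_
    filter_upwards [hb, h] with ω h0 ⟨h1, h2⟩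
    obtain ⟨l, l0, hl⟩ := supp_line (φ := win g) (h := H g (f ω)) h0 win_nonneg
      (by
        have := h2 (Measure.dirac (b ω)) ⟨inferInstance, by
          simp [Measure.dirac_apply, indicator_of_notMem (show b ω ∉ Iio (0 : ℝ) from not_lt.2 h0.le)],
          integrable_dirac (by simp), by simp⟩
        rwa [H, integral_dirac] at this)
      (fun x1 x2 a c d => by
        obtain ⟨f', e1, e2⟩ := adm_two a c d
        rw [← e2]; exact h2 f' e1)
    filter_upwards [contact h1 (int_bdd win_mono win_nonneg win_le _) hl rfl] with x hx hxS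
    refine hcon x hxS ⟨hx.1, l, l0, fun z hz => ?_⟩
    have := hl z hz
    rw [hx.2]; linarith
  have hat : ∀ a, g {a} = 0 := by
    intro a
    by_contra hne
    obtain ⟨x, rfl, h0, l, l0, hl⟩ := hc _ (measurableSet_singleton a) hne
    have hp : 0 < g.real {x} := ENNReal.toReal_pos hne (measure_ne_top _ _)
    have hd : 0 < g.real {x} / 4 / (l + 1) := by positivity
    have h1 := hl (x + g.real {x} / 4 / (l + 1)) (by linarith)
    have h2 : G g x ≤ g.real (Iio (x + g.real {x} / 4 / (l + 1))) :=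
      measureReal_mono (Iic_subset_Iio.2 (by linarith))
    have h3 := G_split (g := g) x
    have h4 : 0 ≤ g.real {x + g.real {x} / 4 / (l + 1)} := measureReal_nonneg
    have h5 : (l + 1) * (g.real {x} / 4 / (l + 1)) = g.real {x} / 4 := by field_simp
    unfold win at h1
    nlinarith
  have hw : win g = G g := by
    funext x; rw [G_split, win, Measure.real, Measure.real, hat]; simp
  refine ⟨⟨hat, ?_, fun y f' hf' => ?_⟩, hw⟩
  · by_contra hne
    obtain ⟨x, hx, h0, _⟩ := hc _ measurableSet_Iio hne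
    exact not_lt.2 h0 hx
  · haveI := hf'.1
    have hi := int_bdd (G_mono (g := g)) G_nonneg G_le f'
    refine le_of_forall_pos_le_add fun ε hε => ?_
    by_cases hne : g {z | y < z ∧ G g z ≤ G g y + ε} = 0
    · have hall : ∀ z, G g z ≤ G g y + ε := by
        by_contra hcon
        push Not at hcon
        set T := {z | G g y + ε < G g z}
        have hbd : ∀ z ∈ T, y ≤ z := fun z hz => by
          by_contra hlt
          have := G_mono (g := g) (not_le.1 hlt).le
          have : G g y + ε < G g z := hz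
          linarith
        have ht : y ≤ sInf T := le_csInf hcon hbd
        have h1 : G g y + ε ≤ G g (sInf T) := by
          refine ContinuousWithinAt.closure_le (s := T) (csInf_mem_closure hcon ⟨y, hbd⟩)
            continuousWithinAt_const ((G_rc _).mono fun z hz => csInf_le ⟨y, hbd⟩ hz)
            fun z hz => le_of_lt hz
        have h2 : g (Ioc y (sInf T)) = 0 := by
          refine measure_mono_null (fun z hz => ?_) (measure_union_null hne (hat (sInf T)))
          rcases hz.2.lt_or_eq with c | c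
          · left
            refine ⟨hz.1, not_lt.1 fun d => ?_⟩
            exact not_lt.2 (csInf_le ⟨y, hbd⟩ d) c
          · exact Or.inr c
        have h3 : G g (sInf T) ≤ G g y := by
          rw [G, ← Iic_union_Ioc_eq_Iic ht]
          refine (measureReal_union_le _ _).trans ?_
          rw [Measure.real.eq_def g (Ioc _ _), h2]; simp [G]
        linarith
      calc ∫ x, G g x ∂f' ≤ ∫ _x, G g y + ε ∂f' := integral_mono hi (integrable_const _) hall
        _ = _ := by simp
    · obtain ⟨s, hs, _, l, l0, hl⟩ := hc _ (measurableSet_Ioi.inter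
        (G_mono.measurable measurableSet_Iic)) hne
      rw [hw] at hl
      obtain ⟨h1, h2⟩ := int_aff hf' (G g s) l s
      have := integral_mono_ae hi h1 (hf'.ae.mono hl)
      rw [h2] at this
      have k1 : y < s := hs.1
      have k2 : G g s ≤ G g y + ε := hs.2
      have : l * (y - s) ≤ 0 := mul_nonpos_of_nonneg_of_nonpos l0 (by linarith)
      linarith

lemma swap_sum (g g' : Measure ℝ) [IsProbabilityMeasure g] [IsProbabilityMeasure g']
    (hat : ∀ a, g {a} = 0) : ∫ x, G g x ∂g' + ∫ x, G g' x ∂g = 1 := by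
  have hs : MeasurableSet {p : ℝ × ℝ | p.2 ≤ p.1} := measurableSet_le measurable_snd measurable_fst
  have h1 := integral_integral_swap (μ := g) (ν := g')
    (f := fun y x => {p : ℝ × ℝ | p.2 ≤ p.1}.indicator (fun _ => (1 : ℝ)) (y, x))
    ((integrable_const _).indicator hs)
  have h2 : ∀ y, ∫ x, {p : ℝ × ℝ | p.2 ≤ p.1}.indicator (fun _ => (1 : ℝ)) (y, x) ∂g' = G g' y := by
    intro y
    rw [G, ← integral_indicator_one measurableSet_Iic]; rfl
  have h3 : ∀ x, ∫ y, {p : ℝ × ℝ | p.2 ≤ p.1}.indicator (fun _ => (1 : ℝ)) (y, x) ∂g = 1 - G g x := by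
    intro x
    have : g.real (Ici x) = 1 - G g x := by
      rw [G_split, Measure.real.eq_def g {x}, hat, ← compl_Iio, probReal_compl_eq_one_sub measurableSet_Iio]
      simp
    rw [← this, ← integral_indicator_one measurableSet_Ici]; rfl
  simp only [h2, h3] at h1
  rw [h1, integral_sub (integrable_const _) (int_bdd G_mono G_nonneg G_le _)]
  simp

lemma int_bind {P : Measure Ω} [IsProbabilityMeasure P] (f : Kernel Ω ℝ) [IsMarkovKernel f]
    {φ : ℝ → ℝ} (hm : Monotone φ) (h0 : ∀ x, 0 ≤ φ x) (h1 : ∀ x, φ x ≤ 1) :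
    Integrable (fun ω => ∫ x, φ x ∂f ω) P ∧ ∫ x, φ x ∂(P.bind f) = ∫ ω, ∫ x, φ x ∂f ω ∂P := by
  have hi : Integrable φ ((f ∘ₖ Kernel.const Unit P) ()) := int_bdd hm h0 h1 _
  refine ⟨hi.integral_comp, ?_⟩
  rw [show P.bind f = (f ∘ₖ Kernel.const Unit P) () from Measure.comp_eq_comp_const_apply]
  exact Kernel.integral_comp hi

/-- Jensen, aggregated -/
lemma agg {g : Measure ℝ} [IsProbabilityMeasure g] (hg : Eqm g) {P : Measure Ω}
    [IsProbabilityMeasure P] {b : Ω → ℝ} (hbm : Measurable b) {f : Kernel Ω ℝ} [IsMarkovKernel f]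
    (h : ∀ᵐ ω ∂P, Adm (f ω) (b ω)) :
    ∫ x, G g x ∂(P.bind f) ≤ ∫ y, G g y ∂(P.map b) ∧
      (∫ x, G g x ∂(P.bind f) = ∫ y, G g y ∂(P.map b) → ∀ᵐ ω ∂P, ∫ x, G g x ∂f ω = G g (b ω)) := by
  obtain ⟨h1, h2⟩ := int_bind (P := P) f (G_mono (g := g)) G_nonneg G_le
  have h3 : Integrable (fun ω => G g (b ω)) P :=
    (int_bdd (G_mono (g := g)) G_nonneg G_le (P.map b)).comp_measurable hbm
  have h4 := h.mono fun ω hω => hg.jen _ _ hω
  rw [h2, integral_map hbm.aemeasurable G_mono.measurable.aestronglyMeasurable]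
  exact ⟨integral_mono_ae h1 h3 h4, (integral_eq_iff_of_ae_le h1 h3 h4).1⟩

lemma Eqm.two {g : Measure ℝ} (hg : Eqm g) {x1 x2 y : ℝ} (h0 : 0 ≤ x1) (h1 : x1 < y) (h2 : y < x2) :
    ((x2 - y) * G g x1 + (y - x1) * G g x2) / (x2 - x1) ≤ G g y := by
  obtain ⟨f', e1, e2⟩ := adm_two h0 h1 h2
  rw [← e2]; exact hg.jen _ _ e1

/-- optimal strategies do not straddle an end of a linear piece -/
lemma cut {g : Measure ℝ} [IsProbabilityMeasure g] (hg : Eqm g) {c l e : ℝ}
    (hl : ∀ z, 0 ≤ z → G g z ≤ c + l * z) (he : G g e = c + l * e)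
    (hend : (∀ z, 0 ≤ z → G g z = c + l * z → e ≤ z) ∨ (∀ z, G g z = c + l * z → z ≤ e))
    {f : Measure ℝ} {y : ℝ} (hy : 0 < y) (hf : Adm f y) (ho : ∫ x, G g x ∂f = G g y)
    (ha : f {e} = 0) : f (Iic e) = (Iic e).indicator 1 y := by
  haveI := hf.1
  obtain ⟨m, _, hm⟩ := supp_line (φ := G g) hy G_nonneg le_rfl fun x1 x2 a b d => hg.two a b d
  have hc := contact hf (int_bdd G_mono G_nonneg G_le _) hm ho
  have hne : ∀ᵐ x ∂f, x ≠ e := by rw [ae_iff]; simpa using ha
  have : (∀ᵐ x ∂f, x < e) ∨ ∀ᵐ x ∂f, e < x := by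
    by_contra hcon
    push Not at hcon
    obtain ⟨x2, a2, ⟨_, b2⟩, c2⟩ := (hcon.1.and_eventually (hc.and hne)).exists
    obtain ⟨x1, a1, ⟨d1, b1⟩, c1⟩ := (hcon.2.and_eventually (hc.and hne)).exists
    have p2 : e < x2 := lt_of_le_of_ne a2 c2.symm
    have p1 : x1 < e := lt_of_le_of_ne a1 c1
    have t1 := hg.two d1 p1 p2
    rw [div_le_iff₀ (by linarith)] at t1
    have u1 := hl x1 d1
    have u2 := hl x2 (by linarith)
    have v1 : (x2 - e) * (c + l * x1 - G g x1) + (e - x1) * (c + l * x2 - G g x2) ≤ 0 := by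
      have u3 := hm e (by linarith)
      rw [b1, b2] at t1 ⊢
      have : G g e * (x2 - x1) ≤ (G g y + m * (e - y)) * (x2 - x1) :=
        mul_le_mul_of_nonneg_right u3 (by linarith)
      rw [he] at t1 this
      nlinarith
    have w1 : 0 ≤ (x2 - e) * (c + l * x1 - G g x1) := mul_nonneg (by linarith) (by linarith)
    have w2 : 0 ≤ (e - x1) * (c + l * x2 - G g x2) := mul_nonneg (by linarith) (by linarith)
    rcases hend with hend | hend
    · have : (x2 - e) * (c + l * x1 - G g x1) = 0 := by linarith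
      have := (mul_eq_zero.1 this).resolve_left (by linarith)
      linarith [hend x1 d1 (by linarith)]
    · have : (e - x1) * (c + l * x2 - G g x2) = 0 := by linarith
      have := (mul_eq_zero.1 this).resolve_left (by linarith)
      linarith [hend x2 (by linarith)]
  rcases this with h | h
  · have h1 : y ≤ e := by
      rw [← hf.2.2.2]
      calc ∫ x, x ∂f ≤ ∫ _x, e ∂f :=
            integral_mono_ae hf.2.2.1 (integrable_const _) (h.mono fun x => le_of_lt)
        _ = e := by simp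
    rw [indicator_of_mem (mem_Iic.2 h1), Pi.one_apply]
    exact (mem_ae_iff_prob_eq_one measurableSet_Iic).1 (h.mono fun x => le_of_lt)
  · have h1 : ¬ y ≤ e := fun h1 => by
      have h2 : ∫ _x, e ∂f ≤ ∫ x, x ∂f :=
        integral_mono_ae (integrable_const _) hf.2.2.1 (h.mono fun x => le_of_lt)
      have h3 := (integral_eq_iff_of_ae_le (integrable_const e) hf.2.2.1
        (h.mono fun x => le_of_lt)).1 (le_antisymm h2 (by rw [hf.2.2.2]; simpa using h1))
      obtain ⟨x, a, b⟩ := (h.and h3).exists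
      exact a.ne b
    rw [indicator_of_notMem (show y ∉ Iic e from h1), measure_eq_zero_iff_ae_notMem]
    exact h.mono fun x hx k => not_lt.2 k hx

lemma cut_agg {g : Measure ℝ} [IsProbabilityMeasure g] (hg : Eqm g) {c l e : ℝ}
    (hl : ∀ z, 0 ≤ z → G g z ≤ c + l * z) (he : G g e = c + l * e)
    (hend : (∀ z, 0 ≤ z → G g z = c + l * z → e ≤ z) ∨ (∀ z, G g z = c + l * z → z ≤ e))
    {P : Measure Ω} {b : Ω → ℝ} (hbm : Measurable b) (hb : ∀ᵐ ω ∂P, 0 < b ω)
    {f : Kernel Ω ℝ} (h : ∀ᵐ ω ∂P, Adm (f ω) (b ω))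
    (ho : ∀ᵐ ω ∂P, ∫ x, G g x ∂f ω = G g (b ω)) (ha : P.bind f {e} = 0) :
    P.bind f (Iic e) = P.map b (Iic e) := by
  have h1 : ∀ᵐ ω ∂P, f ω {e} = 0 := by
    have := Measure.ae_ae_of_ae_comp (measure_eq_zero_iff_ae_notMem.1 ha)
    exact this.mono fun ω hω => measure_eq_zero_iff_ae_notMem.2 hω
  rw [Measure.bind_apply measurableSet_Iic f.aemeasurable, ← lintegral_indicator_one measurableSet_Iic,
    lintegral_map (measurable_one.indicator measurableSet_Iic) hbm]
  refine lintegral_congr_ae ?_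
  filter_upwards [hb, h, ho, h1] with ω a1 a2 a3 a4 using cut hg hl he hend a1 a2 a3 a4

lemma half {g g' : Measure ℝ} [IsProbabilityMeasure g] [IsProbabilityMeasure g'] (hg : Eqm g)
    (hg' : Eqm g') (hc : ∀ c l e : ℝ, (∀ z, 0 ≤ z → G g' z ≤ c + l * z) → G g' e = c + l * e →
      ((∀ z, 0 ≤ z → G g' z = c + l * z → e ≤ z) ∨ (∀ z, G g' z = c + l * z → z ≤ e)) →
      G g e = G g' e) (t : ℝ) : G g' t ≤ G g t := by
  rcases le_or_gt t 0 with ht | ht
  · have : g' (Iic t) = 0 := by
      refine measure_mono_null (fun z hz => ?_) (measure_union_null hg'.neg (hg'.atom 0))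
      exact (hz.trans ht).lt_or_eq
    rw [G, Measure.real, this]; exact G_nonneg t
  obtain ⟨l, l0, hl⟩ := supp_line (φ := G g') ht G_nonneg le_rfl fun x1 x2 a b d => hg'.two a b d
  set c := G g' t - l * t
  have hl' : ∀ z, 0 ≤ z → G g' z ≤ c + l * z := fun z hz => by have := hl z hz; simp only [c]; linarith
  set C := {z | 0 ≤ z ∧ G g' z = c + l * z}
  have htC : t ∈ C := ⟨ht.le, by simp [c]⟩
  have hbb : BddBelow C := ⟨0, fun z hz => hz.1⟩
  have ha0 : 0 ≤ sInf C := le_csInf ⟨t, htC⟩ fun z hz => hz.1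
  have hat : sInf C ≤ t := csInf_le hbb htC
  have hlc : Continuous fun z : ℝ => c + l * z := by fun_prop
  have ha : G g' (sInf C) = c + l * sInf C := le_antisymm (hl' _ ha0)
    (ContinuousWithinAt.closure_le (s := C) (csInf_mem_closure ⟨t, htC⟩ hbb)
      hlc.continuousWithinAt ((G_rc _).mono fun z hz => csInf_le hbb hz) fun z hz => hz.2.ge)
  have ea := hc c l _ hl' ha (Or.inl fun z h1 h2 => csInf_le hbb ⟨h1, h2⟩)
  by_cases hba : BddAbove C
  · have htb : t ≤ sSup C := le_csSup hba htC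
    have hb : G g' (sSup C) = c + l * sSup C := le_antisymm (hl' _ (by linarith))
      (ContinuousWithinAt.closure_le (s := C) (f := fun z => c + l * z) (g := fun _ => G g' (sSup C))
        (csSup_mem_closure ⟨t, htC⟩ hba) hlc.continuousWithinAt continuousWithinAt_const
        fun z hz => hz.2.ge.trans (G_mono (le_csSup hba hz)))
    have eb := hc c l _ hl' hb (Or.inr fun z h2 => by
      rcases le_total 0 z with h1 | h1
      · exact le_csSup hba ⟨h1, h2⟩
      · linarith)
    rcases hat.lt_or_eq with p1 | p1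
    · rcases htb.lt_or_eq with p2 | p2
      · have := hg.two ha0 p1 p2
        rw [ea, eb, ha, hb, div_le_iff₀ (by linarith)] at this
        rw [htC.2]
        refine le_of_mul_le_mul_right ?_ (show 0 < sSup C - sInf C by linarith)
        nlinarith
      · rw [p2, eb]
    · rw [← p1, ea]
  · have h1 : ∀ M, ∃ z ∈ C, M < z := by simpa [not_bddAbove_iff] using hba
    have hl0 : l = 0 := by
      by_contra hne
      have hp : 0 < l := lt_of_le_of_ne l0 (Ne.symm hne)
      obtain ⟨z, hz, hM⟩ := h1 ((1 - c) / l)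
      rw [div_lt_iff₀ hp] at hM
      have := G_le (g := g') z
      rw [hz.2] at this
      linarith
    rw [htC.2, hl0]
    have := G_mono (g := g) hat
    rw [ea, ha, hl0] at this
    simpa using this

theorem result {Ω Ω' : Type*} [MeasurableSpace Ω] [MeasurableSpace Ω']
    (P : Measure Ω) [IsProbabilityMeasure P] (b : Ω → ℝ) (hbm : Measurable b)
    (hb : ∀ᵐ ω ∂P, 0 < b ω) (f : Kernel Ω ℝ) [IsMarkovKernel f]
    (P' : Measure Ω') [IsProbabilityMeasure P'] (b' : Ω' → ℝ) (hbm' : Measurable b')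
    (f' : Kernel Ω' ℝ) [IsMarkovKernel f'] (hB : P.map b = P'.map b')
    (h : NE P b f) (h' : NE P' b' f') : P.bind f = P'.bind f' := by
  have hb' : ∀ᵐ ω ∂P', 0 < b' ω := by
    have := (ae_map_iff hbm.aemeasurable (p := fun y : ℝ => 0 < y) measurableSet_Ioi).2 hb
    rw [hB] at this
    exact ae_of_ae_map hbm'.aemeasurable this
  obtain ⟨e, w⟩ := ne_eqm hb h
  obtain ⟨e', w'⟩ := ne_eqm hb' h'
  haveI : IsProbabilityMeasure (P.bind f) := inferInstanceAs (IsProbabilityMeasure (f ∘ₘ P))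
  haveI : IsProbabilityMeasure (P'.bind f') := inferInstanceAs (IsProbabilityMeasure (f' ∘ₘ P'))
  have o : ∀ᵐ ω ∂P, ∫ x, G (P.bind f) x ∂f ω = G (P.bind f) (b ω) := by
    filter_upwards [hb, h] with ω h0 ⟨h1, h2⟩
    refine le_antisymm (e.jen _ _ h1) ?_
    have := h2 (Measure.dirac (b ω)) ⟨inferInstance, by
      simp [Measure.dirac_apply, indicator_of_notMem (show b ω ∉ Iio (0 : ℝ) from not_lt.2 h0.le)],
      integrable_dirac (by simp), by simp⟩
    rwa [H, integral_dirac, H, w] at this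
  have o' : ∀ᵐ ω ∂P', ∫ x, G (P'.bind f') x ∂f' ω = G (P'.bind f') (b' ω) := by
    filter_upwards [hb', h'] with ω h0 ⟨h1, h2⟩
    refine le_antisymm (e'.jen _ _ h1) ?_
    have := h2 (Measure.dirac (b' ω)) ⟨inferInstance, by
      simp [Measure.dirac_apply, indicator_of_notMem (show b' ω ∉ Iio (0 : ℝ) from not_lt.2 h0.le)],
      integrable_dirac (by simp), by simp⟩
    rwa [H, integral_dirac, H, w'] at this
  have a := h.mono fun ω => And.left
  have a' := h'.mono fun ω => And.left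
  have s1 := swap_sum _ (P.bind f) e.atom
  have s2 := swap_sum _ (P'.bind f') e'.atom
  have s3 := swap_sum _ (P'.bind f') e.atom
  have t1 : ∫ x, G (P.bind f) x ∂(P.bind f) = ∫ y, G (P.bind f) y ∂(P.map b) := by
    rw [(int_bind f G_mono G_nonneg G_le).2,
      integral_map hbm.aemeasurable G_mono.measurable.aestronglyMeasurable]
    exact integral_congr_ae o
  have t2 : ∫ x, G (P'.bind f') x ∂(P'.bind f') = ∫ y, G (P'.bind f') y ∂(P'.map b') := by
    rw [(int_bind f' G_mono G_nonneg G_le).2,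
      integral_map hbm'.aemeasurable G_mono.measurable.aestronglyMeasurable]
    exact integral_congr_ae o'
  obtain ⟨u1, u2⟩ := agg e hbm' a'
  obtain ⟨v1, v2⟩ := agg e' hbm a
  rw [← hB] at u1 u2 t2
  have x1 := u2 (by linarith)
  have x2 := v2 (by linarith)
  refine Measure.ext_of_Iic _ _ fun t => ?_
  refine (measureReal_eq_measureReal_iff (measure_ne_top _ _) (measure_ne_top _ _)).1
    (le_antisymm (half e' e (fun c l z k1 k2 k3 => ?_) t) (half e e' (fun c l z k1 k2 k3 => ?_) t))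
  · rw [G, G, Measure.real, Measure.real, cut_agg e k1 k2 k3 hbm hb a o (e.atom _),
      cut_agg e k1 k2 k3 hbm' hb' a' x1 (e'.atom _), hB]
  · rw [G, G, Measure.real, Measure.real, cut_agg e' k1 k2 k3 hbm hb a x2 (e.atom _),
      cut_agg e' k1 k2 k3 hbm' hb' a' o' (e'.atom _), hB]

end Pool.Agent.Results.MP_ed16aa_pr.Unique
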